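import Mathlib

set_option autoImplicit false

universe u

namespace Pool.Agent.Lib.MP_9317e9_co.Rw

open Cardinal

/-- `T` is split into `W` and `T \ W` such that `a` reaches all of `W` by at most two steps inside
`W`, and `b` is reached from all of `T \ W` by at most two steps inside `T \ W`. -/
def Sol {V : Type u} (R : V → V → Prop) (T : Set V) (a b : V) : Prop :=
  ∃ W ⊆ T, a ∈ W ∧ b ∈ T ∧ b ∉ W ∧
    (∀ v ∈ W, v = a ∨ R a v ∨ ∃ u ∈ W, R a u ∧ R u v) ∧
    ∀ v ∈ T, v ∉ W → v = b ∨ R v b ∨ ∃ u ∈ T, u ∉ W ∧ R v u ∧ R u b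

variable {V : Type u} {R : V → V → Prop} {T : Set V}

theorem sol_flip {a b : V} (h : Sol (fun x y => R y x) T b a) : Sol R T a b := by
  obtain ⟨W, hWT, hb, ha, haW, h1, h2⟩ := h
  refine ⟨T \ W, fun _ h => h.1, ⟨ha, haW⟩, hWT hb, fun h => h.2 hb, ?_, ?_⟩
  · intro v hv
    rcases h2 v hv.1 hv.2 with h | h | ⟨u, hu, huW, h, h'⟩
    · exact Or.inl h
    · exact Or.inr (Or.inl h)
    · exact Or.inr (Or.inr ⟨u, ⟨hu, huW⟩, h', h⟩)
  · intro v hv hvW
    have hvW' : v ∈ W := by
      by_contra hc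
      exact hvW ⟨hv, hc⟩
    rcases h1 v hvW' with h | h | ⟨u, hu, h, h'⟩
    · exact Or.inl h
    · exact Or.inr (Or.inl h)
    · exact Or.inr (Or.inr ⟨u, hWT hu, fun h => h.2 hu, h', h⟩)

theorem sol_of_left {a b : V} (hT : ∀ u ∈ T, ∀ v ∈ T, u ≠ v → R u v ∨ R v u)
    (ha : a ∈ T) (hb : b ∈ T) (hab : a ≠ b)
    (h : ∀ e ∈ T, R e a → R b e → ∃ z ∈ T, z ≠ b ∧ R a z ∧ R z e) : Sol R T a b := by
  refine ⟨{v | v ∈ T ∧ v ≠ b ∧ (v = a ∨ R a v ∨ R b v)}, fun v hv => hv.1,
    ⟨ha, hab, Or.inl rfl⟩, hb, fun h => h.2.1 rfl, ?_, ?_⟩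
  · rintro v ⟨hv, hvb, hv'⟩
    by_cases h1 : v = a
    · exact Or.inl h1
    by_cases h2 : R a v
    · exact Or.inr (Or.inl h2)
    · have h3 : R b v := by
        rcases hv' with h | h | h
        · exact absurd h h1
        · exact absurd h h2
        · exact h
      have h4 : R v a := by
        rcases hT v hv a ha h1 with h | h
        · exact h
        · exact absurd h h2
      obtain ⟨z, hz, hzb, h5, h6⟩ := h v hv h4 h3
      exact Or.inr (Or.inr ⟨z, ⟨hz, hzb, Or.inr (Or.inl h5)⟩, h5, h6⟩)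
  · intro v hv hvW
    by_cases h1 : v = b
    · exact Or.inl h1
    · rcases hT v hv b hb h1 with h | h
      · exact Or.inr (Or.inl h)
      · exact absurd ⟨hv, h1, Or.inr (Or.inr h)⟩ hvW

theorem sol_of_right {a b : V} (hT : ∀ u ∈ T, ∀ v ∈ T, u ≠ v → R u v ∨ R v u)
    (ha : a ∈ T) (hb : b ∈ T) (hab : a ≠ b)
    (h : ∀ e ∈ T, R e a → R b e → ∃ z ∈ T, z ≠ a ∧ R e z ∧ R z b) : Sol R T a b := by
  apply sol_flip
  refine sol_of_left (fun u hu v hv huv => (hT u hu v hv huv).symm) hb ha (Ne.symm hab) ?_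
  intro e he h1 h2
  obtain ⟨z, hz, hza, h3, h4⟩ := h e he h2 h1
  exact ⟨z, hz, hza, h4, h3⟩

/-- If neither `(a, b)` nor `(e, a)` is a solution, where `a → b → e → a` and `e` hits every other
out-neighbour of `a`, then every other out-neighbour of `a` is an out-neighbour of `b`. -/
theorem cyc {a b e : V} (hT : ∀ u ∈ T, ∀ v ∈ T, u ≠ v → R u v ∨ R v u)
    (hR : ∀ u v, R u v → ¬ R v u) (ha : a ∈ T) (hb : b ∈ T) (he : e ∈ T)
    (hab : R a b) (hbe : R b e) (hea : R e a)
    (hS : ∀ z ∈ T, z ≠ b → R a z → ¬ R z e) (h1 : ¬ Sol R T a b) (h2 : ¬ Sol R T e a) :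
    ∀ z ∈ T, z ≠ b → R a z → R b z := by
  have irr : ∀ x, ¬ R x x := fun x h => hR x x h h
  have nab : a ≠ b := by rintro rfl; exact irr _ hab
  have nbe : b ≠ e := by rintro rfl; exact irr _ hbe
  have nea : e ≠ a := by rintro rfl; exact irr _ hea
  -- first step
  have A : ∀ z ∈ T, z ≠ e → R b z → ¬ R z a := by
    intro z hz hze hbz hza
    apply h2
    have nza : z ≠ a := by rintro rfl; exact irr _ hza
    refine ⟨{v | v ∈ T ∧ v ≠ a ∧ v ≠ z ∧ (v = e ∨ R e v)}, fun v hv => hv.1,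
      ⟨he, nea, Ne.symm hze, Or.inl rfl⟩, ha, fun h => h.2.1 rfl, ?_, ?_⟩
    · rintro v ⟨-, -, -, h | h⟩
      · exact Or.inl h
      · exact Or.inr (Or.inl h)
    · intro v hv hvW
      by_cases k1 : v = a
      · exact Or.inl k1
      by_cases k2 : v = z
      · rw [k2]
        exact Or.inr (Or.inl hza)
      by_cases k3 : R v a
      · exact Or.inr (Or.inl k3)
      have k4 : R a v := by
        rcases hT v hv a ha k1 with h | h
        · exact absurd h k3
        · exact h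
      have k5 : v ≠ e := by
        intro h
        rw [h] at k4
        exact hR _ _ hea k4
      by_cases k6 : v = b
      · rw [k6]
        exact Or.inr (Or.inr ⟨z, hz, fun h => h.2.2.1 rfl, hbz, hza⟩)
      · exfalso
        have k7 := hS v hv k6 k4
        have k8 : R e v := by
          rcases hT v hv e he k5 with h | h
          · exact absurd h k7
          · exact h
        exact hvW ⟨hv, k1, k2, Or.inr k8⟩
  have B : ∀ z ∈ T, z ≠ a → R e z → ¬ R z b := by
    by_contra hc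
    push Not at hc
    obtain ⟨z, hz, hza, hez, hzb⟩ := hc
    apply h1
    refine sol_of_right hT ha hb nab ?_
    intro e' he' h3 h4
    have : e' = e := by
      by_contra hne
      exact A e' he' hne h4 h3
    rw [this]
    exact ⟨z, hz, hza, hez, hzb⟩
  intro z hz hzb haz
  have hze : z ≠ e := by
    rintro rfl
    exact hR _ _ hea haz
  have hza : z ≠ a := by
    rintro rfl
    exact irr _ haz
  have h3 : R e z := by
    rcases hT e he z hz (Ne.symm hze) with h | h
    · exact h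
    · exact absurd h (hS z hz hzb haz)
  rcases hT b hb z hz (Ne.symm hzb) with h | h
  · exact h
  · exact absurd h (B z hz hza h3)

/-- If no pair outside `F` is a solution, out-degrees outside `F` are at most `#F + 1`. -/
theorem outdeg {F : Set V} (hT : ∀ u ∈ T, ∀ v ∈ T, u ≠ v → R u v ∨ R v u)
    (hR : ∀ u v, R u v → ¬ R v u)
    (hno : ∀ a ∈ T \ F, ∀ b ∈ T \ F, a ≠ b → ¬ Sol R T a b) (x : V) (hx : x ∈ T \ F) :
    #{y | y ∈ T \ F ∧ R x y} ≤ #F + 1 := by
  classical
  have key : ∀ y : {y | y ∈ T \ F ∧ R x y}, ∃ e ∈ T, R e x ∧ R y.1 e ∧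
      ∀ z ∈ T, z ≠ y.1 → R x z → ¬ R z e := by
    rintro ⟨y, hy, hxy⟩
    by_contra hc
    push Not at hc
    have nxy : x ≠ y := by rintro rfl; exact hR _ _ hxy hxy
    refine hno x hx y hy nxy (sol_of_left hT hx.1 hy.1 nxy ?_)
    intro e he h1 h2
    obtain ⟨z, hz, hzy, h3, h4⟩ := hc e he h1 h2
    exact ⟨z, hz, hzy, h3, h4⟩
  choose e he hex hye hS using key
  have hinj : Function.Injective
      (fun y : {y | y ∈ T \ F ∧ R x y} => if h : e y ∈ F then some (⟨e y, h⟩ : F) else none) := by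
    intro y y' hyy
    by_contra hne
    have hne' : y'.1 ≠ y.1 := fun h => hne (Subtype.ext h.symm)
    have hne2 : y.1 ≠ y'.1 := fun h => hne (Subtype.ext h)
    by_cases h1 : e y ∈ F
    · by_cases h2 : e y' ∈ F
      · simp only [h1, h2, dif_pos, Option.some.injEq, Subtype.mk.injEq] at hyy
        have h3 := hS y y'.1 y'.2.1.1 hne' y'.2.2
        rw [hyy] at h3
        exact h3 (hye y')
      · simp [h1, h2] at hyy
    · by_cases h2 : e y' ∈ F
      · simp [h1, h2] at hyy
      · have n1 : e y ≠ x := by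
          intro h
          have := hex y
          rw [h] at this
          exact hR _ _ this this
        have n2 : e y' ≠ x := by
          intro h
          have := hex y'
          rw [h] at this
          exact hR _ _ this this
        have nx1 : x ≠ y.1 := by
          intro h
          have := y.2.2
          rw [← h] at this
          exact hR _ _ this this
        have nx2 : x ≠ y'.1 := by
          intro h
          have := y'.2.2
          rw [← h] at this
          exact hR _ _ this this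
        have a1 := cyc hT hR hx.1 y.2.1.1 (he y) y.2.2 (hye y) (hex y) (hS y)
          (hno x hx y.1 y.2.1 nx1) (hno (e y) ⟨he y, h1⟩ x hx n1) y'.1 y'.2.1.1 hne' y'.2.2
        have a2 := cyc hT hR hx.1 y'.2.1.1 (he y') y'.2.2 (hye y') (hex y') (hS y')
          (hno x hx y'.1 y'.2.1 nx2) (hno (e y') ⟨he y', h2⟩ x hx n2) y.1 y.2.1.1 hne2 y.2.2
        exact hR _ _ a1 a2
  calc #{y | y ∈ T \ F ∧ R x y} ≤ #(Option F) := mk_le_of_injective hinj
    _ = #F + 1 := mk_option

theorem exists_sol {F : Set V} {κ : Cardinal.{u}} (hκ : ℵ₀ ≤ κ) (hTκ : κ ≤ #T) (hF : #F < κ)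
    (hT : ∀ u ∈ T, ∀ v ∈ T, u ≠ v → R u v ∨ R v u) (hR : ∀ u v, R u v → ¬ R v u) :
    ∃ a ∈ T \ F, ∃ b ∈ T \ F, a ≠ b ∧ Sol R T a b := by
  by_contra hc
  push Not at hc
  have hT2 : T ⊆ (T \ F) ∪ F := by
    intro v hv
    by_cases h : v ∈ F
    · exact Or.inr h
    · exact Or.inl ⟨hv, h⟩
  have hne : (T \ F).Nonempty := by
    by_contra he
    rw [Set.not_nonempty_iff_eq_empty] at he
    rw [he, Set.empty_union] at hT2
    exact absurd (lt_of_le_of_lt (mk_le_mk_of_subset hT2) hF) (not_lt.mpr hTκ)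
  obtain ⟨x, hx⟩ := hne
  have h1 := outdeg hT hR hc x hx
  have h2 := outdeg (R := fun x y => R y x) (F := F)
    (fun u hu v hv huv => (hT u hu v hv huv).symm) (fun u v h => hR v u h)
    (fun a ha b hb hab hs => hc b hb a ha (Ne.symm hab) (sol_flip hs)) x hx
  have hF1 : #F + 1 < κ := add_lt_of_lt hκ hF (lt_of_lt_of_le one_lt_aleph0 hκ)
  have hsub : T ⊆ (({x} : Set V) ∪ {y | y ∈ T \ F ∧ R x y}) ∪ ({y | y ∈ T \ F ∧ R y x} ∪ F) := by
    intro v hv
    by_cases h : v ∈ F
    · exact Or.inr (Or.inr h)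
    · by_cases h' : v = x
      · exact Or.inl (Or.inl h')
      · rcases hT v hv x hx.1 h' with h3 | h3
        · exact Or.inr (Or.inl ⟨⟨hv, h⟩, h3⟩)
        · exact Or.inl (Or.inr ⟨⟨hv, h⟩, h3⟩)
  have hlt : #T < κ := by
    refine lt_of_le_of_lt (mk_le_mk_of_subset hsub) ?_
    refine lt_of_le_of_lt (mk_union_le _ _) ?_
    refine add_lt_of_lt hκ ?_ ?_
    · refine lt_of_le_of_lt (mk_union_le _ _) (add_lt_of_lt hκ ?_ (lt_of_le_of_lt h1 hF1))
      rw [mk_singleton]
      exact lt_of_lt_of_le one_lt_aleph0 hκ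
    · exact lt_of_le_of_lt (mk_union_le _ _) (add_lt_of_lt hκ (lt_of_le_of_lt h2 hF1) hF)
  exact absurd hlt (not_lt.mpr hTκ)

end Pool.Agent.Lib.MP_9317e9_co.Rw
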