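import Mathlib
import Pool.Agent.Lib.MP_9317e9_co.Defs
import Pool.Agent.Lib.MP_9317e9_co.Rw.Pair

set_option autoImplicit false

universe u

namespace Pool.Agent.Lib.MP_9317e9_co.Rw

open Cardinal

variable {V : Type u}

/-- In a semicomplete part with at least `κ` vertices fewer than `κ` vertices can be avoided. -/
theorem row_sol (G : Digraph V) (hG : ∀ v, ¬ G.Adj v v) (T : Set V) {κ : Cardinal.{u}}
    (hκ : ℵ₀ ≤ κ) (hTκ : κ ≤ #T)
    (hT : ∀ u ∈ T, ∀ v ∈ T, u ≠ v → G.Adj u v ∨ G.Adj v u) (F : Set V) (hF : #F < κ) :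
    ∃ W A B : Set V, W ⊆ T ∧ A.Finite ∧ B.Finite ∧ Disjoint A F ∧ Disjoint B F ∧ QK G W A ∧
      QS G (T \ W) B := by
  let R : V → V → Prop := fun u v => G.Adj u v ∧ (G.Adj v u → WellOrderingRel u v)
  have hR : ∀ u v, R u v → ¬ R v u := by
    intro u v h1 h2
    exact asymm (h1.2 h2.1) (h2.2 h1.1)
  have hRT : ∀ u ∈ T, ∀ v ∈ T, u ≠ v → R u v ∨ R v u := by
    intro u hu v hv huv
    by_cases h1 : G.Adj u v
    · by_cases h2 : G.Adj v u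
      · rcases trichotomous_of (WellOrderingRel : V → V → Prop) u v with h | h | h
        · exact Or.inl ⟨h1, fun _ => h⟩
        · exact absurd h huv
        · exact Or.inr ⟨h2, fun _ => h⟩
      · exact Or.inl ⟨h1, fun h => absurd h h2⟩
    · rcases hT u hu v hv huv with h | h
      · exact absurd h h1
      · exact Or.inr ⟨h, fun h' => absurd h' h1⟩
  obtain ⟨a, ha, b, hb, -, W, hWT, haW, -, hbW, h1, h2⟩ := exists_sol hκ hTκ hF hRT hR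
  refine ⟨W, {a}, {b}, hWT, Set.finite_singleton a, Set.finite_singleton b,
    Set.disjoint_singleton_left.2 ha.2, Set.disjoint_singleton_left.2 hb.2,
    ⟨Set.singleton_subset_iff.2 haW, ?_, ?_⟩, ⟨Set.singleton_subset_iff.2 ⟨hb.1, hbW⟩, ?_, ?_⟩⟩
  · rintro x rfl y rfl
    exact hG _
  · intro v hv
    rcases h1 v hv with h | h | ⟨u, hu, h, h'⟩
    · exact Or.inl h
    · exact Or.inr ⟨a, rfl, Or.inl h.1⟩
    · exact Or.inr ⟨a, rfl, Or.inr ⟨u, hu, h.1, h'.1⟩⟩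
  · rintro x rfl y rfl
    exact hG _
  · intro v hv
    rcases h2 v hv.1 hv.2 with h | h | ⟨u, hu, huW, h, h'⟩
    · exact Or.inl h
    · exact Or.inr ⟨b, rfl, Or.inl h.1⟩
    · exact Or.inr ⟨b, rfl, Or.inr ⟨u, ⟨hu, huW⟩, h.1, h'.1⟩⟩

/-- A union of fewer than `κ` finite sets has fewer than `κ` elements. -/
theorem card_union_lt {κ : Cardinal.{u}} (hκ : ℵ₀ ≤ κ) {I : Type u} (hI : #I < κ) (f : I → Set V)
    (hf : ∀ i, (f i).Finite) : #(⋃ i, f i : Set V) < κ := by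
  by_cases h : #I < ℵ₀
  · have : Finite I := lt_aleph0_iff_finite.1 h
    exact lt_of_lt_of_le (lt_aleph0_iff_set_finite.2 (Set.finite_iUnion hf)) hκ
  · have h' : ℵ₀ ≤ #I := not_lt.1 h
    refine lt_of_le_of_lt ((mk_iUnion_le_sum_mk).trans ?_) hI
    refine (sum_le_sum (fun i => #(f i)) (fun _ => ℵ₀) fun i =>
      (lt_aleph0_iff_set_finite.2 (hf i)).le).trans ?_
    rw [sum_const, lift_id, lift_id, mul_aleph0_eq h']

theorem main {ι : Type u} (G : Digraph V) (r : V → ι) (κ : Cardinal.{u}) (hκ : ℵ₀ ≤ κ)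
    (hι : #ι ≤ κ)
    (hsp : ∀ (x : ι) (U : Set V), #U < κ → (∀ u ∈ U, r u ≠ x) →
      #{v | r v = x ∧ ∃ u ∈ U, G.Adj u v ∨ G.Adj v u} < κ)
    (hrow : ∀ (x : ι) (F : Set V), #F < κ → ∃ W A B : Set V, W ⊆ {v | r v = x} ∧ A.Finite ∧
      B.Finite ∧ Disjoint A F ∧ Disjoint B F ∧ QK G W A ∧ QS G ({v | r v = x} \ W) B) :
    ∃ W : Set V, (∃ A, QK G W A) ∧ ∃ B, QS G Wᶜ B := by
  classical
  have key : ∀ (x : ι) (U : Set V), ∃ W A B : Set V, W ⊆ {v | r v = x} ∧ A.Finite ∧ B.Finite ∧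
      QK G W A ∧ QS G ({v | r v = x} \ W) B ∧ (#U < κ → (∀ u ∈ U, r u ≠ x) →
      ∀ u ∈ U, (∀ a ∈ A, ¬ G.Adj u a ∧ ¬ G.Adj a u) ∧ ∀ b ∈ B, ¬ G.Adj u b ∧ ¬ G.Adj b u) := by
    intro x U
    by_cases h : #U < κ ∧ ∀ u ∈ U, r u ≠ x
    · obtain ⟨W, A, B, h1, h2, h3, h4, h5, h6, h7⟩ := hrow x _ (hsp x U h.1 h.2)
      refine ⟨W, A, B, h1, h2, h3, h6, h7, fun _ _ u hu => ⟨fun a ha => ?_, fun b hb => ?_⟩⟩
      · have h8 : ¬ (G.Adj u a ∨ G.Adj a u) := fun h9 =>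
          Set.disjoint_left.1 h4 ha ⟨h1 (h6.1 ha), u, hu, h9⟩
        exact not_or.1 h8
      · have h8 : ¬ (G.Adj u b ∨ G.Adj b u) := fun h9 =>
          Set.disjoint_left.1 h5 hb ⟨(h7.1 hb).1, u, hu, h9⟩
        exact not_or.1 h8
    · have h0 : #(∅ : Set V) < κ := by
        rw [mk_eq_zero]
        exact lt_of_lt_of_le aleph0_pos hκ
      obtain ⟨W, A, B, h1, h2, h3, h4, h5, h6, h7⟩ := hrow x ∅ h0
      exact ⟨W, A, B, h1, h2, h3, h6, h7, fun k1 k2 => absurd ⟨k1, k2⟩ h⟩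
  choose W A B hW hA hB hQK hQS hav using key
  obtain ⟨lt, wo, hord⟩ := exists_ord_eq ι
  have hseg : ∀ x, #{y // lt y x} < κ := fun x =>
    lt_of_lt_of_le (card_typein_lt (r := lt) x hord) hι
  let U : ι → Set V := wo.wf.fix fun x rec =>
    ⋃ y : {y // lt y x}, A y.1 (rec y.1 y.2) ∪ B y.1 (rec y.1 y.2)
  have hU : ∀ x, U x = ⋃ y : {y // lt y x}, A y.1 (U y.1) ∪ B y.1 (U y.1) := by
    intro x
    exact wo.wf.fix_eq _ x
  have hrA : ∀ x (S : Set V), ∀ a ∈ A x S, r a = x := fun x S a ha => hW x S ((hQK x S).1 ha)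
  have hrB : ∀ x (S : Set V), ∀ a ∈ B x S, r a = x := fun x S a ha => ((hQS x S).1 ha).1
  have hUr : ∀ x, ∀ u ∈ U x, r u ≠ x := by
    intro x u hu
    rw [hU, Set.mem_iUnion] at hu
    obtain ⟨⟨y, hy⟩, hu⟩ := hu
    have h1 : r u = y := by
      rcases hu with h | h
      · exact hrA y _ u h
      · exact hrB y _ u h
    rw [h1]
    rintro rfl
    exact irrefl_of lt _ hy
  have hUc : ∀ x, #(U x) < κ := by
    intro x
    rw [hU]
    exact card_union_lt hκ (hseg x) _ fun y => (hA _ _).union (hB _ _)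
  have hav' : ∀ x, ∀ u ∈ U x, (∀ a ∈ A x (U x), ¬ G.Adj u a ∧ ¬ G.Adj a u) ∧
      ∀ b ∈ B x (U x), ¬ G.Adj u b ∧ ¬ G.Adj b u := fun x => hav x (U x) (hUc x) (hUr x)
  have hAU : ∀ x y, lt y x → ∀ a ∈ A y (U y), a ∈ U x := by
    intro x y hyx a ha
    rw [hU, Set.mem_iUnion]
    exact ⟨⟨y, hyx⟩, Or.inl ha⟩
  have hBU : ∀ x y, lt y x → ∀ a ∈ B y (U y), a ∈ U x := by
    intro x y hyx a ha
    rw [hU, Set.mem_iUnion]
    exact ⟨⟨y, hyx⟩, Or.inr ha⟩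
  have hmem : ∀ v, v ∈ (⋃ x, W x (U x)) ↔ v ∈ W (r v) (U (r v)) := by
    intro v
    rw [Set.mem_iUnion]
    constructor
    · rintro ⟨x, hx⟩
      have : r v = x := hW x _ hx
      rw [this]
      exact hx
    · exact fun h => ⟨_, h⟩
  refine ⟨⋃ x, W x (U x), ⟨⋃ x, A x (U x), ?_, ?_, ?_⟩, ⟨⋃ x, B x (U x), ?_, ?_, ?_⟩⟩
  · exact Set.iUnion_mono fun x => (hQK x _).1
  · intro a ha b hb
    rw [Set.mem_iUnion] at ha hb
    obtain ⟨x, hx⟩ := ha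
    obtain ⟨y, hy⟩ := hb
    rcases trichotomous_of lt x y with h | h | h
    · exact ((hav' y a (hAU y x h a hx)).1 b hy).1
    · subst h
      exact (hQK x _).2.1 a hx b hy
    · exact ((hav' x b (hAU x y h b hy)).1 a hx).2
  · intro v hv
    rw [hmem] at hv
    rcases (hQK (r v) _).2.2 v hv with h | ⟨a, ha, h | ⟨u, hu, h, h'⟩⟩
    · exact Or.inl (Set.mem_iUnion.2 ⟨_, h⟩)
    · exact Or.inr ⟨a, Set.mem_iUnion.2 ⟨_, ha⟩, Or.inl h⟩
    · exact Or.inr ⟨a, Set.mem_iUnion.2 ⟨_, ha⟩, Or.inr ⟨u, Set.mem_iUnion.2 ⟨_, hu⟩, h, h'⟩⟩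
  · intro b hb
    rw [Set.mem_iUnion] at hb
    obtain ⟨x, hx⟩ := hb
    have h1 := (hQS x _).1 hx
    intro h2
    rw [hmem, hrB x _ b hx] at h2
    exact h1.2 h2
  · intro a ha b hb
    rw [Set.mem_iUnion] at ha hb
    obtain ⟨x, hx⟩ := ha
    obtain ⟨y, hy⟩ := hb
    rcases trichotomous_of lt x y with h | h | h
    · exact ((hav' y a (hBU y x h a hx)).2 b hy).1
    · subst h
      exact (hQS x _).2.1 a hx b hy
    · exact ((hav' x b (hBU x y h b hy)).2 a hx).2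
  · intro v hv
    have hv' : v ∈ {w | r w = r v} \ W (r v) (U (r v)) := by
      refine ⟨rfl, fun h => hv ?_⟩
      rw [hmem]
      exact h
    have hc : ∀ u ∈ {w | r w = r v} \ W (r v) (U (r v)), u ∈ (⋃ x, W x (U x))ᶜ := by
      intro u hu h
      rw [hmem, show r u = r v from hu.1] at h
      exact hu.2 h
    rcases (hQS (r v) _).2.2 v hv' with h | ⟨b, hb, h | ⟨u, hu, h, h'⟩⟩
    · exact Or.inl (Set.mem_iUnion.2 ⟨_, h⟩)
    · exact Or.inr ⟨b, Set.mem_iUnion.2 ⟨_, hb⟩, Or.inl h⟩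
    · exact Or.inr ⟨b, Set.mem_iUnion.2 ⟨_, hb⟩, Or.inr ⟨u, hc u hu, h, h'⟩⟩

end Pool.Agent.Lib.MP_9317e9_co.Rw
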