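import Mathlib
import Pool.Agent.Lib.MP_9317e9_co.Defs

set_option autoImplicit false

universe u

namespace Pool.Agent.Lib.MP_9317e9_co.Rw

open Cardinal

variable {V : Type u}

/-- The reversed digraph. -/
def rev (G : Digraph V) : Digraph V where
  Adj a b := G.Adj b a

theorem qs_of_rev {G : Digraph V} {W A : Set V} (h : QK (rev G) W A) : QS G W A := by
  refine ⟨h.1, fun a ha b hb => h.2.1 b hb a ha, fun v hv => ?_⟩
  rcases h.2.2 v hv with h | ⟨a, ha, h | ⟨u, hu, h1, h2⟩⟩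
  · exact Or.inl h
  · exact Or.inr ⟨a, ha, Or.inl h⟩
  · exact Or.inr ⟨a, ha, Or.inr ⟨u, hu, h2, h1⟩⟩

theorem qk_of_rev {G : Digraph V} {W A : Set V} (h : QS (rev G) W A) : QK G W A := by
  refine ⟨h.1, fun a ha b hb => h.2.1 b hb a ha, fun v hv => ?_⟩
  rcases h.2.2 v hv with h | ⟨a, ha, h | ⟨u, hu, h1, h2⟩⟩
  · exact Or.inl h
  · exact Or.inr ⟨a, ha, Or.inl h⟩
  · exact Or.inr ⟨a, ha, Or.inr ⟨u, hu, h2, h1⟩⟩

/-- Chvatal and Lovasz: finite induced subdigraphs have quasi-kernels. -/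
theorem exists_qk_finite (G : Digraph V) (hG : ∀ v, ¬ G.Adj v v) (X : Set V) (hX : X.Finite) :
    ∃ A, QK G X A := by
  classical
  obtain ⟨n, hn⟩ : ∃ n, X.ncard ≤ n := ⟨_, le_rfl⟩
  induction n generalizing X with
  | zero =>
    have h0 : X = ∅ := by
      rw [← Set.ncard_eq_zero hX]
      omega
    refine ⟨∅, Set.empty_subset _, fun a ha => absurd ha (Set.notMem_empty _), fun v hv => ?_⟩
    rw [h0] at hv
    exact absurd hv (Set.notMem_empty _)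
  | succ n ih =>
    rcases X.eq_empty_or_nonempty with h0 | ⟨v, hv⟩
    · refine ⟨∅, Set.empty_subset _, fun a ha => absurd ha (Set.notMem_empty _), fun v hv => ?_⟩
      rw [h0] at hv
      exact absurd hv (Set.notMem_empty _)
    · let X' : Set V := {x | x ∈ X ∧ x ≠ v ∧ ¬ G.Adj v x}
      have hX' : X' ⊆ X \ {v} := fun x hx => ⟨hx.1, hx.2.1⟩
      have hc : X'.ncard ≤ n := by
        have h1 := Set.ncard_le_ncard hX' (hX.subset Set.sdiff_subset)
        have h2 := Set.ncard_sdiff_singleton_add_one hv hX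
        omega
      obtain ⟨A, hA1, hA2, hA3⟩ := ih X' (hX.subset fun x hx => hx.1) hc
      have hcov : ∀ x ∈ X, x ≠ v → ¬ G.Adj v x → x ∈ A ∨ ∃ a ∈ A, G.Adj a x ∨
          ∃ u ∈ X, G.Adj a u ∧ G.Adj u x := by
        intro x hx h1 h2
        rcases hA3 x ⟨hx, h1, h2⟩ with h | ⟨a, ha, h | ⟨u, hu, h, h'⟩⟩
        · exact Or.inl h
        · exact Or.inr ⟨a, ha, Or.inl h⟩
        · exact Or.inr ⟨a, ha, Or.inr ⟨u, hu.1, h, h'⟩⟩
      by_cases h : ∃ a ∈ A, G.Adj a v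
      · obtain ⟨a, ha, hav⟩ := h
        refine ⟨A, fun x hx => (hA1 hx).1, hA2, fun x hx => ?_⟩
        by_cases h1 : x = v
        · rw [h1]
          exact Or.inr ⟨a, ha, Or.inl hav⟩
        by_cases h2 : G.Adj v x
        · exact Or.inr ⟨a, ha, Or.inr ⟨v, hv, hav, h2⟩⟩
        · exact hcov x hx h1 h2
      · push Not at h
        refine ⟨insert v A, ?_, ?_, fun x hx => ?_⟩
        · intro x hx
          rcases hx with rfl | hx
          · exact hv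
          · exact (hA1 hx).1
        · rintro a (rfl | ha) b (rfl | hb)
          · exact hG _
          · exact (hA1 hb).2.2
          · exact h a ha
          · exact hA2 a ha b hb
        · by_cases h1 : x = v
          · exact Or.inl (Or.inl h1)
          by_cases h2 : G.Adj v x
          · exact Or.inr ⟨v, Or.inl rfl, Or.inl h2⟩
          · rcases hcov x hx h1 h2 with h | ⟨a, ha, h⟩
            · exact Or.inl (Or.inr h)
            · exact Or.inr ⟨a, Or.inr ha, h⟩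

/-- `T` has a partition with a finite quasi-kernel and a finite quasi-sink which avoid `F`. -/
def Good (G : Digraph V) (T F : Set V) : Prop :=
  ∃ W A B : Set V, W ⊆ T ∧ A.Finite ∧ B.Finite ∧ Disjoint A F ∧ Disjoint B F ∧ QK G W A ∧
    QS G (T \ W) B

theorem good_of_rev {G : Digraph V} {T F : Set V} (h : Good (rev G) T F) : Good G T F := by
  obtain ⟨W, A, B, hW, hA, hB, hAF, hBF, h1, h2⟩ := h
  refine ⟨T \ W, B, A, fun x hx => hx.1, hB, hA, hBF, hAF, qk_of_rev h2, ?_⟩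
  have h3 : T \ (T \ W) = W := by
    ext x
    constructor
    · intro hx
      by_contra h
      exact hx.2 ⟨hx.1, h⟩
    · exact fun hx => ⟨hW hx, fun h => h.2 hx⟩
  rw [h3]
  exact qs_of_rev h1

/-- `R` orients `G` on `T`. -/
structure Ori (G : Digraph V) (T : Set V) (R : V → V → Prop) : Prop where
  sub : ∀ u v, R u v → G.Adj u v
  asym : ∀ u v, R u v → ¬ R v u
  non : ∀ u ∈ T, ∀ v ∈ T, u ≠ v → ¬ R u v → ¬ R v u → ¬ G.Adj u v
  fin : ∀ v ∈ T, {w | w ∈ T ∧ w ≠ v ∧ ¬ R v w ∧ ¬ R w v}.Finite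

theorem Ori.rev {G : Digraph V} {T : Set V} {R : V → V → Prop} (h : Ori G T R) :
    Ori (rev G) T (fun u v => R v u) where
  sub u v huv := h.sub v u huv
  asym u v huv := h.asym v u huv
  non u hu v hv huv h1 h2 := h.non v hv u hu (Ne.symm huv) h1 h2
  fin v hv := (h.fin v hv).subset fun _ hw => ⟨hw.1, hw.2.1, hw.2.2.2, hw.2.2.1⟩

theorem Ori.irr {G : Digraph V} {T : Set V} {R : V → V → Prop} (h : Ori G T R) (v : V) :
    ¬ R v v := fun hv => h.asym v v hv hv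

/-- The first step: if every vertex `e` with `b → e → a` can be reached from `a` in two steps which
avoid `b`, then there is a solution. -/
theorem good_left {G : Digraph V} (hG : ∀ v, ¬ G.Adj v v) {T F F' : Set V} {R : V → V → Prop}
    (hO : Ori G T R) (hFF : F ⊆ F')
    (hF' : ∀ f ∈ F, f ∈ T → ∀ v ∈ T, v ≠ f → ¬ R f v → ¬ R v f → v ∈ F')
    {a b : V} (ha : a ∈ T \ F') (hb : b ∈ T \ F') (hab : R a b)
    (h : ∀ e ∈ T, R e a → R b e → ∃ z ∈ T, z ≠ b ∧ R a z ∧ R z e) : Good G T F := by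
  have nab : a ≠ b := by rintro rfl; exact hO.irr _ hab
  have hnF : ∀ c ∈ T \ F', ∀ w ∈ T, w ≠ c → ¬ R c w → ¬ R w c → w ∉ F := by
    intro c hc w hw hwc h1 h2 hwF
    exact hc.2 (hF' w hwF hw c hc.1 (Ne.symm hwc) h2 h1)
  have haF : a ∉ F := fun h => ha.2 (hFF h)
  have hbF : b ∉ F := fun h => hb.2 (hFF h)
  let Na : Set V := {w | w ∈ T ∧ w ≠ a ∧ ¬ R a w ∧ ¬ R w a}
  let Y : Set V := {w | w ∈ T ∧ w ≠ b ∧ ¬ R b w ∧ ¬ R w b ∧ R w a}
  have hYf : Y.Finite := (hO.fin b hb.1).subset fun w hw => ⟨hw.1, hw.2.1, hw.2.2.1, hw.2.2.2.1⟩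
  obtain ⟨A, hA⟩ := exists_qk_finite G hG Na (hO.fin a ha.1)
  obtain ⟨B, hB'⟩ := exists_qk_finite (rev G) (fun v => hG v) Y hYf
  have hB := qs_of_rev hB'
  refine ⟨{v | v ∈ T ∧ v ≠ b ∧ (v = a ∨ v ∈ Na ∨ R a v ∨ (R v a ∧ R b v))}, insert a A, insert b B,
    fun v hv => hv.1, ((hO.fin a ha.1).subset hA.1).insert a, (hYf.subset hB.1).insert b, ?_, ?_,
    ⟨?_, ?_, ?_⟩, ⟨?_, ?_, ?_⟩⟩
  · rw [Set.disjoint_left]
    rintro x (rfl | hx)
    · exact haF
    · have := hA.1 hx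
      exact hnF a ha x this.1 this.2.1 this.2.2.1 this.2.2.2
  · rw [Set.disjoint_left]
    rintro x (rfl | hx)
    · exact hbF
    · have := hB.1 hx
      exact hnF b hb x this.1 this.2.1 this.2.2.1 this.2.2.2.1
  · rintro x (rfl | hx)
    · exact ⟨ha.1, nab, Or.inl rfl⟩
    · have h1 := hA.1 hx
      refine ⟨h1.1, ?_, Or.inr (Or.inl h1)⟩
      rintro rfl
      exact h1.2.2.1 hab
  · rintro x (rfl | hx) y (rfl | hy)
    · exact hG _
    · have h1 := hA.1 hy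
      exact hO.non _ ha.1 _ h1.1 (Ne.symm h1.2.1) h1.2.2.1 h1.2.2.2
    · have h1 := hA.1 hx
      exact hO.non _ h1.1 _ ha.1 h1.2.1 h1.2.2.2 h1.2.2.1
    · exact hA.2.1 x hx y hy
  · rintro v ⟨hv, hvb, hv'⟩
    by_cases h1 : v = a
    · exact Or.inl (Or.inl h1)
    by_cases h2 : R a v
    · exact Or.inr ⟨a, Or.inl rfl, Or.inl (hO.sub _ _ h2)⟩
    by_cases h3 : v ∈ Na
    · rcases hA.2.2 v h3 with h | ⟨c, hc, h | ⟨u, hu, h, h'⟩⟩
      · exact Or.inl (Or.inr h)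
      · exact Or.inr ⟨c, Or.inr hc, Or.inl h⟩
      · refine Or.inr ⟨c, Or.inr hc, Or.inr ⟨u, ⟨hu.1, ?_, Or.inr (Or.inl hu)⟩, h, h'⟩⟩
        rintro rfl
        exact hu.2.2.1 hab
    · obtain ⟨h4, h5⟩ : R v a ∧ R b v := by
        rcases hv' with h | h | h | h
        · exact absurd h h1
        · exact absurd h h3
        · exact absurd h h2
        · exact h
      obtain ⟨z, hz, hzb, h6, h7⟩ := h v hv h4 h5
      exact Or.inr ⟨a, Or.inl rfl, Or.inr ⟨z, ⟨hz, hzb, Or.inr (Or.inr (Or.inl h6))⟩,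
        hO.sub _ _ h6, hO.sub _ _ h7⟩⟩
  · have hYW : ∀ y ∈ Y, y ∈ T \ {v | v ∈ T ∧ v ≠ b ∧ (v = a ∨ v ∈ Na ∨ R a v ∨
        (R v a ∧ R b v))} := by
      rintro y ⟨hy, hyb, h1, h2, h3⟩
      refine ⟨hy, ?_⟩
      rintro ⟨-, -, h4 | h4 | h4 | h4⟩
      · rw [h4] at h3
        exact hO.irr _ h3
      · exact h4.2.2.2 h3
      · exact hO.asym _ _ h3 h4
      · exact h1 h4.2
    rintro x (rfl | hx)
    · exact ⟨hb.1, fun h => h.2.1 rfl⟩
    · exact hYW x (hB.1 hx)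
  · rintro x (rfl | hx) y (rfl | hy)
    · exact hG _
    · have h1 := hB.1 hy
      exact hO.non _ hb.1 _ h1.1 (Ne.symm h1.2.1) h1.2.2.1 h1.2.2.2.1
    · have h1 := hB.1 hx
      exact hO.non _ h1.1 _ hb.1 h1.2.1 h1.2.2.2.1 h1.2.2.1
    · exact hB.2.1 x hx y hy
  · have hYW : ∀ y ∈ Y, y ∈ T \ {v | v ∈ T ∧ v ≠ b ∧ (v = a ∨ v ∈ Na ∨ R a v ∨
        (R v a ∧ R b v))} := by
      rintro y ⟨hy, hyb, h1, h2, h3⟩
      refine ⟨hy, ?_⟩
      rintro ⟨-, -, h4 | h4 | h4 | h4⟩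
      · rw [h4] at h3
        exact hO.irr _ h3
      · exact h4.2.2.2 h3
      · exact hO.asym _ _ h3 h4
      · exact h1 h4.2
    rintro v ⟨hv, hvW⟩
    by_cases h1 : v = b
    · exact Or.inl (Or.inl h1)
    by_cases h2 : R v b
    · exact Or.inr ⟨b, Or.inl rfl, Or.inl (hO.sub _ _ h2)⟩
    have h3 : v ≠ a := fun h => hvW ⟨hv, h1, Or.inl h⟩
    have h4 : ¬ R a v := fun h => hvW ⟨hv, h1, Or.inr (Or.inr (Or.inl h))⟩
    have h5 : R v a := by
      by_contra hc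
      exact hvW ⟨hv, h1, Or.inr (Or.inl ⟨hv, h3, h4, hc⟩)⟩
    have h6 : ¬ R b v := fun h => hvW ⟨hv, h1, Or.inr (Or.inr (Or.inr ⟨h5, h⟩))⟩
    rcases hB.2.2 v ⟨hv, h1, h6, h2, h5⟩ with h | ⟨c, hc, h | ⟨u, hu, h, h'⟩⟩
    · exact Or.inl (Or.inr h)
    · exact Or.inr ⟨c, Or.inr hc, Or.inl h⟩
    · exact Or.inr ⟨c, Or.inr hc, Or.inr ⟨u, hYW u hu, h, h'⟩⟩

end Pool.Agent.Lib.MP_9317e9_co.Rw
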