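import Mathlib
import Pool.Agent.Lib.MP_9317e9_co.Defs
import Pool.Agent.Lib.MP_9317e9_co.Rw.Main
import Pool.Agent.Lib.MP_9317e9_co.Rw.Near

set_option autoImplicit false

universe u

namespace Pool.Agent.Lib.MP_9317e9_co.Rw

open Cardinal

variable {V : Type u}

/-- If there is no solution, out-degrees outside `F'` are less than `κ`. -/
theorem outdeg_near {G : Digraph V} (hG : ∀ v, ¬ G.Adj v v) {T F F' : Set V} {R : V → V → Prop}
    (hO : Ori G T R) (hFF : F ⊆ F')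
    (hF' : ∀ f ∈ F, f ∈ T → ∀ v ∈ T, v ≠ f → ¬ R f v → ¬ R v f → v ∈ F')
    (hno : ¬ Good G T F) {κ : Cardinal.{u}} (hκ : ℵ₀ ≤ κ) (hFκ : #F' < κ) (x : V)
    (hx : x ∈ T \ F') : #{y | y ∈ T \ F' ∧ R x y} < κ := by
  classical
  have key0 : ∀ a ∈ T \ F', ∀ b ∈ T \ F', R a b → ∃ e ∈ T, R e a ∧ R b e ∧
      ∀ z ∈ T, z ≠ b → R a z → ¬ R z e := by
    intro a ha b hb hab
    by_contra hc
    push Not at hc
    refine hno (good_left hG hO hFF hF' ha hb hab ?_)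
    intro e he h1 h2
    obtain ⟨z, hz, hzb, h3, h4⟩ := hc e he h1 h2
    exact ⟨z, hz, hzb, h3, h4⟩
  have key : ∀ y : {y | y ∈ T \ F' ∧ R x y}, ∃ e ∈ T, R e x ∧ R y.1 e ∧
      ∀ z ∈ T, z ≠ y.1 → R x z → ¬ R z e := fun y => key0 x hx y.1 y.2.1 y.2.2
  choose e he hex hye hS using key
  have hinj : Function.Injective e := by
    intro y y' hyy
    by_contra hne
    have hne' : y'.1 ≠ y.1 := fun h => hne (Subtype.ext h.symm)
    have h3 := hS y y'.1 y'.2.1.1 hne' y'.2.2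
    rw [hyy] at h3
    exact h3 (hye y')
  have hT' : ∀ y, e y ∉ F' → ∀ z ∈ T, z ≠ x → R (e y) z → ¬ R z y.1 := by
    intro y hy
    obtain ⟨e2, he2, h1, h2, h3⟩ := key0 (e y) ⟨he y, hy⟩ x hx (hex y)
    have h4 : e2 = y.1 := by
      by_contra hne
      exact hS y e2 he2 hne h2 h1
    rw [h4] at h3
    exact h3
  have hT'' : ∀ y, e y ∉ F' → ∀ z ∈ T, z ≠ e y → R y.1 z → ¬ R z x := by
    intro y hy
    obtain ⟨e3, he3, h1, h2, h3⟩ := key0 y.1 y.2.1 (e y) ⟨he y, hy⟩ (hye y)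
    have h4 : e3 = x := by
      by_contra hne
      exact hT' y hy e3 he3 hne h2 h1
    rw [h4] at h3
    exact h3
  have hfin : {y | e y ∉ F'}.Finite := by
    by_contra hc
    have hinf : {y | e y ∉ F'}.Infinite := hc
    obtain ⟨y, hy⟩ := hinf.nonempty
    let N : V → Set V := fun v => {w | w ∈ T ∧ w ≠ v ∧ ¬ R v w ∧ ¬ R w v}
    have hN1 := hO.fin y.1 y.2.1.1
    have hN2 := hO.fin (e y) (he y)
    have hbad : ((fun y' : {y | y ∈ T \ F' ∧ R x y} => y'.1) ⁻¹' (N y.1 ∪ N (e y) ∪ {y.1}) ∪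
        e ⁻¹' (N y.1 ∪ {e y})).Finite := by
      refine Set.Finite.union ?_ ?_
      · exact ((hN1.union hN2).union (Set.finite_singleton _)).preimage
          Subtype.val_injective.injOn
      · exact (hN1.union (Set.finite_singleton _)).preimage hinj.injOn
    obtain ⟨y', hy', hb⟩ := (hinf.sdiff hbad).nonempty
    have hb1 : y'.1 ∉ N y.1 := fun h => hb (Or.inl (Or.inl (Or.inl h)))
    have hb2 : y'.1 ∉ N (e y) := fun h => hb (Or.inl (Or.inl (Or.inr h)))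
    have hb3 : y'.1 ≠ y.1 := fun h => hb (Or.inl (Or.inr h))
    have hb4 : e y' ∉ N y.1 := fun h => hb (Or.inr (Or.inl h))
    have hb5 : e y' ≠ e y := fun h => hb (Or.inr (Or.inr h))
    have n1 : y'.1 ≠ e y := by
      intro h
      have h1 := y'.2.2
      rw [h] at h1
      exact hO.asym _ _ h1 (hex y)
    have n2 : e y' ≠ y.1 := by
      intro h
      have h1 := hex y'
      rw [h] at h1
      exact hO.asym _ _ h1 y.2.2
    have n3 : y'.1 ≠ x := by
      intro h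
      have h1 := y'.2.2
      rw [h] at h1
      exact hO.irr _ h1
    have n4 : y.1 ≠ x := by
      intro h
      have h1 := y.2.2
      rw [h] at h1
      exact hO.irr _ h1
    have s1 : R (e y) y'.1 := by
      by_contra h
      exact hb2 ⟨y'.2.1.1, n1, h, hS y y'.1 y'.2.1.1 hb3 y'.2.2⟩
    have s2 : R y.1 y'.1 := by
      by_contra h
      exact hb1 ⟨y'.2.1.1, hb3, h, hT' y hy y'.1 y'.2.1.1 n3 s1⟩
    have s3 : R (e y') y.1 := by
      by_contra h
      refine hb4 ⟨he y', n2, ?_, h⟩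
      intro h'
      exact hT'' y hy (e y') (he y') hb5 h' (hex y')
    exact hT' y' hy' y.1 y.2.1.1 n4 s3 s2
  have h1 : #{y | e y ∈ F'} ≤ #F' :=
    mk_le_of_injective (f := fun y : {y | e y ∈ F'} => (⟨e y.1, y.2⟩ : F')) fun y y' h =>
      Subtype.ext (hinj (congrArg Subtype.val h))
  have h2 : #{y | e y ∉ F'} < κ := lt_of_lt_of_le (lt_aleph0_iff_set_finite.2 hfin) hκ
  have h3 : #{y | y ∈ T \ F' ∧ R x y} = #{y | e y ∈ F'} + #{y | e y ∉ F'} :=
    (mk_sum_compl {y | e y ∈ F'}).symm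
  rw [h3]
  exact add_lt_of_lt hκ (lt_of_le_of_lt h1 hFκ) h2

theorem good_near {G : Digraph V} (hG : ∀ v, ¬ G.Adj v v) {T F : Set V} {R : V → V → Prop}
    (hO : Ori G T R) {κ : Cardinal.{u}} (hκ : ℵ₀ ≤ κ) (hTκ : κ ≤ #T) (hF : #F < κ) :
    Good G T F := by
  by_contra hno
  let N : V → Set V := fun v => {w | w ∈ T ∧ w ≠ v ∧ ¬ R v w ∧ ¬ R w v}
  let F' : Set V := F ∪ ⋃ f : {f : F | f.1 ∈ T}, N f.1.1
  have hFF : F ⊆ F' := Set.subset_union_left
  have hFκ : #F' < κ := by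
    refine lt_of_le_of_lt (mk_union_le _ _) (add_lt_of_lt hκ hF ?_)
    refine card_union_lt hκ (lt_of_le_of_lt (mk_set_le _) hF) _ ?_
    rintro ⟨f, hf⟩
    exact hO.fin f.1 hf
  have hF' : ∀ f ∈ F, f ∈ T → ∀ v ∈ T, v ≠ f → ¬ R f v → ¬ R v f → v ∈ F' := by
    intro f hf hfT v hv hvf h1 h2
    refine Or.inr (Set.mem_iUnion.2 ⟨⟨⟨f, hf⟩, hfT⟩, hv, hvf, h1, h2⟩)
  have hT2 : T ⊆ (T \ F') ∪ F' := by
    intro v hv
    by_cases h : v ∈ F'
    · exact Or.inr h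
    · exact Or.inl ⟨hv, h⟩
  have hne : (T \ F').Nonempty := by
    by_contra he
    rw [Set.not_nonempty_iff_eq_empty] at he
    rw [he, Set.empty_union] at hT2
    exact absurd (lt_of_le_of_lt (mk_le_mk_of_subset hT2) hFκ) (not_lt.mpr hTκ)
  obtain ⟨x, hx⟩ := hne
  have h1 := outdeg_near hG hO hFF hF' hno hκ hFκ x hx
  have h2 := outdeg_near (G := rev G) (fun v => hG v) hO.rev hFF
    (fun f hf hfT v hv hvf h1 h2 => hF' f hf hfT v hv hvf h2 h1) (fun h => hno (good_of_rev h)) hκ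
    hFκ x hx
  have h3 : #(N x) < κ := lt_of_lt_of_le (lt_aleph0_iff_set_finite.2 (hO.fin x hx.1)) hκ
  have hsub : T ⊆ (({x} : Set V) ∪ {y | y ∈ T \ F' ∧ R x y}) ∪
      (({y | y ∈ T \ F' ∧ R y x} ∪ N x) ∪ F') := by
    intro v hv
    by_cases h : v ∈ F'
    · exact Or.inr (Or.inr h)
    · by_cases h' : v = x
      · exact Or.inl (Or.inl h')
      · by_cases h4 : R x v
        · exact Or.inl (Or.inr ⟨⟨hv, h⟩, h4⟩)
        · by_cases h5 : R v x
          · exact Or.inr (Or.inl (Or.inl ⟨⟨hv, h⟩, h5⟩))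
          · exact Or.inr (Or.inl (Or.inr ⟨hv, h', h4, h5⟩))
  have hlt : #T < κ := by
    refine lt_of_le_of_lt (mk_le_mk_of_subset hsub) ?_
    refine lt_of_le_of_lt (mk_union_le _ _) ?_
    refine add_lt_of_lt hκ ?_ ?_
    · refine lt_of_le_of_lt (mk_union_le _ _) (add_lt_of_lt hκ ?_ h1)
      rw [mk_singleton]
      exact lt_of_lt_of_le one_lt_aleph0 hκ
    · refine lt_of_le_of_lt (mk_union_le _ _) (add_lt_of_lt hκ ?_ hFκ)
      exact lt_of_le_of_lt (mk_union_le _ _) (add_lt_of_lt hκ h2 h3)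
  exact absurd hlt (not_lt.mpr hTκ)

/-- In a part with at least `κ` vertices, each of which has only finitely many non-neighbours in it,
fewer than `κ` vertices can be avoided. -/
theorem row_near (G : Digraph V) (hG : ∀ v, ¬ G.Adj v v) (T : Set V) {κ : Cardinal.{u}}
    (hκ : ℵ₀ ≤ κ) (hTκ : κ ≤ #T)
    (hT : ∀ u ∈ T, {v | v ∈ T ∧ v ≠ u ∧ ¬ G.Adj u v ∧ ¬ G.Adj v u}.Finite) (F : Set V)
    (hF : #F < κ) :
    ∃ W A B : Set V, W ⊆ T ∧ A.Finite ∧ B.Finite ∧ Disjoint A F ∧ Disjoint B F ∧ QK G W A ∧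
      QS G (T \ W) B := by
  let R : V → V → Prop := fun u v => G.Adj u v ∧ (G.Adj v u → WellOrderingRel u v)
  have hR : ∀ u v, R u v → ¬ R v u := by
    intro u v h1 h2
    exact asymm (h1.2 h2.1) (h2.2 h1.1)
  have hRG : ∀ u v, u ≠ v → ¬ R u v → ¬ R v u → ¬ G.Adj u v ∧ ¬ G.Adj v u := by
    intro u v huv h1 h2
    by_cases h3 : G.Adj u v
    · by_cases h4 : G.Adj v u
      · rcases trichotomous_of (WellOrderingRel : V → V → Prop) u v with h | h | h
        · exact absurd ⟨h3, fun _ => h⟩ h1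
        · exact absurd h huv
        · exact absurd ⟨h4, fun _ => h⟩ h2
      · exact absurd ⟨h3, fun h => absurd h h4⟩ h1
    · by_cases h4 : G.Adj v u
      · exact absurd ⟨h4, fun h => absurd h h3⟩ h2
      · exact ⟨h3, h4⟩
  have hO : Ori G T R :=
    { sub := fun u v h => h.1
      asym := hR
      non := fun u _ v _ huv h1 h2 => (hRG u v huv h1 h2).1
      fin := fun v hv => (hT v hv).subset fun w hw =>
        ⟨hw.1, hw.2.1, hRG v w (Ne.symm hw.2.1) hw.2.2.1 hw.2.2.2⟩ }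
  exact good_near hG hO hκ hTκ hF

/-- Parts with at least `κ` vertices, each with only finitely many non-neighbours in its part, or
with finite solutions which avoid any given set of fewer than `κ` vertices. -/
theorem main_near {ι : Type u} (G : Digraph V) (hG : ∀ v, ¬ G.Adj v v) (r : V → ι)
    (κ : Cardinal.{u}) (hκ : ℵ₀ ≤ κ) (hι : #ι ≤ κ)
    (hsp : ∀ (x : ι) (U : Set V), #U < κ → (∀ u ∈ U, r u ≠ x) →
      #{v | r v = x ∧ ∃ u ∈ U, G.Adj u v ∨ G.Adj v u} < κ)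
    (hrow : ∀ x : ι, (κ ≤ #{v | r v = x} ∧
        ∀ u, r u = x → {v | r v = x ∧ v ≠ u ∧ ¬ G.Adj u v ∧ ¬ G.Adj v u}.Finite) ∨
      ∀ F : Set V, #F < κ → ∃ W A B : Set V, W ⊆ {v | r v = x} ∧ A.Finite ∧ B.Finite ∧
        Disjoint A F ∧ Disjoint B F ∧ QK G W A ∧ QS G ({v | r v = x} \ W) B) :
    ∃ W : Set V, (∃ A, QK G W A) ∧ ∃ B, QS G Wᶜ B := by
  refine main G r κ hκ hι hsp fun x F hF => ?_
  rcases hrow x with h | h
  · exact row_near G hG _ hκ h.1 (fun u hu => h.2 u hu) F hF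
  · exact h F hF

end Pool.Agent.Lib.MP_9317e9_co.Rw
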