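import Mathlib
import Pool.Agent.Lib.MP_9317e9_co.Defs
import Pool.Agent.Lib.MP_9317e9_co.Rw.Near2

set_option autoImplicit false

universe u

namespace Pool.Agent.Lib.MP_9317e9_co.Rw

open Cardinal

/-- The Cartesian product of two digraphs. -/
def box {V₁ V₂ : Type u} (G₁ : Digraph V₁) (G₂ : Digraph V₂) : Digraph (V₁ × V₂) where
  Adj a b := (a.1 = b.1 ∧ G₂.Adj a.2 b.2) ∨ (a.2 = b.2 ∧ G₁.Adj a.1 b.1)

/-- Cartesian products of an infinite digraph with a locally finite complement (such as an infinite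
tournament) and any loopless digraph which is not larger. -/
theorem box_sol {V₁ V₂ : Type u} (G₁ : Digraph V₁) (G₂ : Digraph V₂) (h₁ : ∀ v, ¬ G₁.Adj v v)
    (h₂ : ∀ v, ¬ G₂.Adj v v) (hV : ℵ₀ ≤ #V₂) (hle : #V₁ ≤ #V₂)
    (hs : ∀ u, {v | v ≠ u ∧ ¬ G₂.Adj u v ∧ ¬ G₂.Adj v u}.Finite) :
    ∃ W : Set (V₁ × V₂), (∃ A, QK (box G₁ G₂) W A) ∧ ∃ B, QS (box G₁ G₂) Wᶜ B := by
  refine main_near (box G₁ G₂) ?_ Prod.fst (#V₂) hV hle ?_ ?_
  · rintro ⟨a, b⟩ (⟨_, h⟩ | ⟨_, h⟩)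
    · exact h₂ b h
    · exact h₁ a h
  · intro x U hU hx
    refine lt_of_le_of_lt ?_ hU
    refine le_trans (mk_le_mk_of_subset ?_) (mk_image_le (f := fun u : V₁ × V₂ => (x, u.2)) (s := U))
    rintro ⟨a, b⟩ ⟨rfl, ⟨c, d⟩, hu, h⟩
    refine ⟨(c, d), hu, ?_⟩
    have hca : c ≠ a := hx _ hu
    have hbd : d = b := by
      rcases h with (⟨h, _⟩ | ⟨h, _⟩) | (⟨h, _⟩ | ⟨h, _⟩)
      · exact absurd h hca
      · exact h
      · exact absurd h.symm hca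
      · exact h.symm
    rw [hbd]
  · intro x
    refine Or.inl ⟨?_, ?_⟩
    · refine mk_le_of_injective (f := fun b : V₂ => (⟨(x, b), rfl⟩ : {v : V₁ × V₂ | v.1 = x})) ?_
      intro b b' hb
      have := congrArg (fun p : {v : V₁ × V₂ | v.1 = x} => p.1.2) hb
      exact this
    · rintro ⟨a, b⟩ rfl
      refine ((hs b).image (fun d => (a, d))).subset ?_
      rintro ⟨c, d⟩ ⟨hc, hne, h1, h2⟩
      have hc' : c = a := hc
      subst hc'
      refine ⟨d, ⟨fun h => hne (by rw [h]), fun h => h1 (Or.inl ⟨rfl, h⟩),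
        fun h => h2 (Or.inl ⟨rfl, h⟩)⟩, rfl⟩

end Pool.Agent.Lib.MP_9317e9_co.Rw
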